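import Mathlib
import Pool.Agent.H51.AngleDefs
import Pool.Agent.H51.AngleProof
import Pool.Agent.H51.AngleSpaces

/-!
# The classes of normed spaces with the angle `∠_ρ` are pairwise different

The definitions used in the statement are in `Pool.Agent.H51.AngleDefs`.
-/

open Pool.Agent.H51.Angle

namespace Pool.Agent.Results.MP_843c3c_an.FiveClasses

lemma abs_part_le {X : Type} [NormedAddCommGroup X] [NormedSpace ℝ X] {x y : X}
    (hx : ‖x‖ = 1) (hy : ‖y‖ = 1) : |(‖x + y‖ ^ 2 - ‖x - y‖ ^ 2) / 4| ≤ 1 := by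
  have h3 : ‖x + y‖ ≤ 2 := by
    calc ‖x + y‖ ≤ ‖x‖ + ‖y‖ := norm_add_le _ _
      _ = 2 := by rw [hx, hy]; norm_num
  have h4 : ‖x - y‖ ≤ 2 := by
    calc ‖x - y‖ ≤ ‖x‖ + ‖y‖ := norm_sub_le _ _
      _ = 2 := by rw [hx, hy]; norm_num
  have h5 : ‖x + y‖ ^ 2 ≤ 4 := by nlinarith [norm_nonneg (x + y)]
  have h6 : ‖x - y‖ ^ 2 ≤ 4 := by nlinarith [norm_nonneg (x - y)]
  rw [abs_le]
  constructor
  · have := sq_nonneg ‖x + y‖
    linarith
  · have := sq_nonneg ‖x - y‖
    linarith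

lemma sum_pos {X : Type} [NormedAddCommGroup X] [NormedSpace ℝ X] {x y : X}
    (hx : ‖x‖ = 1) : 0 < (‖x + y‖ ^ 2 + ‖x - y‖ ^ 2) / 4 := by
  have h : (2 : ℝ) ≤ ‖x + y‖ + ‖x - y‖ := by
    calc (2 : ℝ) = ‖(2 : ℝ) • x‖ := by rw [norm_smul, hx]; norm_num
      _ = ‖(x + y) + (x - y)‖ := by congr 1; rw [two_smul]; abel
      _ ≤ _ := norm_add_le _ _
  nlinarith [norm_nonneg (x + y), norm_nonneg (x - y), sq_nonneg (‖x + y‖ - ‖x - y‖),
    sq_nonneg (‖x + y‖ + ‖x - y‖ - 2)]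

lemma subset_pos {α β : ℝ} (hα : 0 ≤ α) (hαβ : α ≤ β) : NormClass β ⊆ NormClass α := by
  intro X hX
  change HasAngle α X.carrier
  have hX' : HasAngle β X.carrier := hX
  rw [hasAngle_iff_unit] at hX' ⊢
  intro x y hx hy
  have h1 := hX' x y hx hy
  have h2 := abs_part_le hx hy
  have h3 := sum_pos (y := y) hx
  set v := (‖x + y‖ ^ 2 + ‖x - y‖ ^ 2) / 4
  rcases le_total 1 v with hv | hv
  · refine le_trans ?_ h1
    gcongr
  · have : v ^ α ≤ 1 := Real.rpow_le_one h3.le hv hα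
    calc _ ≤ (1 : ℝ) * 1 := by gcongr
      _ = 1 := one_mul 1

lemma subset_neg {γ δ : ℝ} (hγ : 0 ≤ γ) (hγδ : γ ≤ δ) : NormClass (-δ) ⊆ NormClass (-γ) := by
  intro X hX
  change HasAngle (-γ) X.carrier
  have hX' : HasAngle (-δ) X.carrier := hX
  rw [hasAngle_iff_unit] at hX' ⊢
  intro x y hx hy
  have h1 := hX' x y hx hy
  have h2 := abs_part_le hx hy
  have h3 := sum_pos (y := y) hx
  set v := (‖x + y‖ ^ 2 + ‖x - y‖ ^ 2) / 4
  rcases le_total 1 v with hv | hv
  · have : v ^ (-γ) ≤ 1 := Real.rpow_le_one_of_one_le_of_nonpos hv (by linarith)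
    calc _ ≤ (1 : ℝ) * 1 := by gcongr
      _ = 1 := one_mul 1
  · refine le_trans ?_ h1
    gcongr ?_ * ?_
    exact Real.rpow_le_rpow_of_exponent_ge h3 hv (by linarith)

/-- The plane as a bundled space. -/
noncomputable def planeSpace (a : ℝ) : RealNormedSpace := ⟨Plane a⟩

/-- The dual of the plane as a bundled space. -/
noncomputable def dualSpace (a : ℝ) : RealNormedSpace := ⟨StrongDual ℝ (Plane a)⟩

/-- **Main result.** For all real `1 < γ < δ` and `1 < α < β` the five classes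
`NORM_{-δ}, NORM_{-γ}, NORM, NORM_α, NORM_β` of real normed spaces are pairwise different; in
particular `NORM_{-δ} ⊊ NORM_{-γ}` and `NORM_β ⊊ NORM_α`. -/
theorem result (α β γ δ : ℝ) (hγ : 1 < γ) (hγδ : γ < δ) (hα : 1 < α) (hαβ : α < β) :
    [NormClass (-δ), NormClass (-γ), Set.univ, NormClass α, NormClass β].Nodup ∧
      NormClass (-δ) ⊂ NormClass (-γ) ∧ NormClass β ⊂ NormClass α := by
  have hβ : 1 < β := hα.trans hαβ
  have hδ : 1 < δ := hγ.trans hγδ
  -- membership facts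
  have memα : planeSpace ((α - 1) / 2) ∈ NormClass α :=
    plane_hasAngle (by linarith) (by linarith) (by linarith)
  have memβ : planeSpace ((β - 1) / 2) ∈ NormClass β :=
    plane_hasAngle (by linarith) (by linarith) (by linarith)
  have nmemβ : planeSpace ((α - 1) / 2) ∉ NormClass β :=
    plane_not_hasAngle (by linarith) (by linarith)
  have nmemα : planeSpace ((α - 1) / 4) ∉ NormClass α :=
    plane_not_hasAngle (by linarith) (by linarith)
  have memγ : dualSpace ((γ - 1) / 2) ∈ NormClass (-γ) :=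
    dual_hasAngle (by linarith) (by linarith) (by linarith)
  have nmemδ : dualSpace ((γ - 1) / 2) ∉ NormClass (-δ) :=
    dual_not_hasAngle (by linarith) (by linarith)
  have nneg : ∀ (a c : ℝ), 0 < a → 1 < c → planeSpace a ∉ NormClass (-c) :=
    fun a c ha hc => plane_not_hasAngle_neg ha hc
  refine ⟨?_, ⟨subset_neg (by linarith) hγδ.le, fun h => nmemδ (h memγ)⟩,
    ⟨subset_pos (by linarith) hαβ.le, fun h => nmemβ (h memα)⟩⟩
  simp only [List.nodup_cons, List.mem_cons, List.not_mem_nil, or_false, not_or,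
    not_false_eq_true, List.nodup_nil, and_true]
  refine ⟨⟨?_, ?_, ?_, ?_⟩, ⟨?_, ?_, ?_⟩, ⟨?_, ?_⟩, ?_⟩
  · intro h; exact nmemδ (h ▸ memγ)
  · intro h; exact nmemδ (h ▸ Set.mem_univ _)
  · intro h; exact nneg ((α - 1) / 2) δ (by linarith) hδ (h ▸ memα)
  · intro h; exact nneg ((β - 1) / 2) δ (by linarith) hδ (h ▸ memβ)
  · intro h; exact nneg ((α - 1) / 2) γ (by linarith) hγ (h ▸ Set.mem_univ _)
  · intro h; exact nneg ((α - 1) / 2) γ (by linarith) hγ (h ▸ memα)
  · intro h; exact nneg ((β - 1) / 2) γ (by linarith) hγ (h ▸ memβ)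
  · intro h; exact nmemα (h ▸ Set.mem_univ _)
  · intro h; exact nmemβ (h ▸ Set.mem_univ _)
  · intro h; exact nmemβ (h ▸ memα)

end Pool.Agent.Results.MP_843c3c_an.FiveClasses
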